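import Pool.Agent.H919.FP.Ring

/-!
# Elementary facts on the coordinate ring `B` of the cone
-/

namespace Pool.Agent.H862.FP

open Pool.Agent.H919.FP

lemma hpol_monic : hpol.Monic := by
  have : hpol = Polynomial.X ^ 4 + (Polynomial.C (MvPolynomial.X 0 ^ 3) * Polynomial.X +
    Polynomial.C (MvPolynomial.X 0 * MvPolynomial.X 1 ^ 3)) := by
    unfold hpol; ring
  rw [this]
  apply Polynomial.monic_X_pow_add
  refine lt_of_le_of_lt (b := ((1 : ℕ) : WithBot ℕ)) ?_ (by norm_cast)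
  exact Polynomial.degree_linear_le

lemma eval_hpol {S : Type} [CommRing S] (f : P2 →+* S) (s : S) :
    hpol.eval₂ f s = s ^ 4 + f (MvPolynomial.X 0) ^ 3 * s +
      f (MvPolynomial.X 0) * f (MvPolynomial.X 1) ^ 3 := by
  unfold hpol
  rw [Polynomial.eval₂_add, Polynomial.eval₂_add, Polynomial.eval₂_mul, Polynomial.eval₂_pow,
    Polynomial.eval₂_X, Polynomial.eval₂_C, Polynomial.eval₂_C, map_mul, map_pow, map_pow]

lemma hh_pB : hh pB = 0 := by
  have h := AdjoinRoot.eval₂_root hpol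
  rw [eval_hpol] at h
  exact h

lemma two_zmod : (2 : ZMod 2) = 0 := by decide

lemma two_P2 : (2 : P2) = 0 := by
  have : (2 : P2) = MvPolynomial.C (2 : ZMod 2) := (map_ofNat MvPolynomial.C 2).symm
  rw [this, two_zmod, map_zero]

lemma two_B : (2 : B) = 0 := by
  have : (2 : B) = AdjoinRoot.of hpol 2 := (map_ofNat (AdjoinRoot.of hpol) 2).symm
  rw [this, two_P2, map_zero]

/-- the universal map -/
lemma exists_hom (C : Type) [CommRing C] (p : Fin 3 → C) (h2 : (2 : C) = 0) (hp : hh p = 0) :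
    ∃ φ : B →+* C, ∀ i, φ (pB i) = p i := by
  have h2' : ((2 : ℕ) : C) = 0 := by exact_mod_cast h2
  let ι : ZMod 2 →+* C := ZMod.castHom (ringChar.dvd h2') C
  let ψ : P2 →+* C := MvPolynomial.eval₂Hom ι ![p 0, p 1]
  have hψ0 : ψ (MvPolynomial.X 0) = p 0 := by simp [ψ]
  have hψ1 : ψ (MvPolynomial.X 1) = p 1 := by simp [ψ]
  have hroot : hpol.eval₂ ψ (p 2) = 0 := by
    rw [eval_hpol, hψ0, hψ1]
    exact hp
  refine ⟨AdjoinRoot.lift ψ (p 2) hroot, fun i => ?_⟩
  fin_cases i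
  · show AdjoinRoot.lift ψ (p 2) hroot (AdjoinRoot.of hpol (MvPolynomial.X 0)) = p 0
    rw [AdjoinRoot.lift_of, hψ0]
  · show AdjoinRoot.lift ψ (p 2) hroot (AdjoinRoot.of hpol (MvPolynomial.X 1)) = p 1
    rw [AdjoinRoot.lift_of, hψ1]
  · show AdjoinRoot.lift ψ (p 2) hroot (AdjoinRoot.root hpol) = p 2
    rw [AdjoinRoot.lift_root]

lemma hom_ext (C : Type) [CommRing C] (φ ψ : B →+* C) (h : ∀ i, φ (pB i) = ψ (pB i)) :
    φ = ψ := by
  have h0 : (φ.comp (AdjoinRoot.of hpol)) = (ψ.comp (AdjoinRoot.of hpol)) := by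
    apply MvPolynomial.ringHom_ext
    · intro r
      have : (φ.comp (AdjoinRoot.of hpol)).comp (MvPolynomial.C) =
          (ψ.comp (AdjoinRoot.of hpol)).comp (MvPolynomial.C) := Subsingleton.elim _ _
      exact RingHom.congr_fun this r
    · intro i
      fin_cases i
      · exact h 0
      · exact h 1
  apply Ideal.Quotient.ringHom_ext
  apply Polynomial.ringHom_ext
  · intro a
    exact RingHom.congr_fun h0 a
  · exact h 2

theorem t_B1 : S_B1 := by
  refine ⟨hh_pB, two_B, ?_, fun C _ p h2 hp => exists_hom C p h2 hp,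
    fun C _ φ ψ h => hom_ext C φ ψ h, ?_, ?_⟩
  · obtain ⟨φ, -⟩ := exists_hom (ZMod 2) (fun _ => 0) two_zmod (by simp [hh])
    exact φ.domain_nontrivial
  · exact Module.Free.of_basis (AdjoinRoot.powerBasis' hpol_monic).basis
  · exact exists_hom (ZMod 2) (fun _ => 0) two_zmod (by simp [hh])

end Pool.Agent.H862.FP
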